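import Mathlib
import Pool.Agent.H568.GR.Stm

/-!
# S_DEC of project GR (second prover): few squarefree products of split primes give few numbers of
positive weight.
-/

set_option autoImplicit false

namespace Pool.Agent.TH423.GR.DecA

open Finset
open scoped Pointwise

/-- the weight -/
def rr (D : ℤ) (n : ℕ) : ℤ := ∑ d ∈ n.divisors, jacobiSym D d

lemma rr_mul (D : ℤ) {m n : ℕ} (h : m.Coprime n) : rr D (m * n) = rr D m * rr D n := by
  unfold rr
  rw [Nat.divisors_mul, Finset.mul_def, Finset.sum_image, Finset.sum_mul_sum, ← Finset.sum_product']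
  · refine Finset.sum_congr rfl ?_
    rintro ⟨a, b⟩ hab
    rw [Finset.mem_product] at hab
    exact jacobiSym.mul_right' D (Nat.pos_of_mem_divisors hab.1).ne' (Nat.pos_of_mem_divisors hab.2).ne'
  · exact h.mul_injOn_divisors

lemma rr_prime (D : ℤ) {p : ℕ} (hp : p.Prime) : rr D p = 1 + jacobiSym D p := by
  unfold rr
  rw [hp.divisors, Finset.sum_pair hp.one_lt.ne]
  simp

/-- representation predicate -/
def Rep (D : ℤ) (n : ℕ) : Prop := ∃ a b u v : ℕ, n = a * b * u ^ 2 * v ^ 3 ∧ Squarefree a ∧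
  (∀ p : ℕ, p.Prime → p ∣ a → p ≠ 2 ∧ jacobiSym D p = 1) ∧ b ∣ D.natAbs

lemma rep (D : ℤ) (n : ℕ) : n ≠ 0 → Odd n → rr D n ≠ 0 → Rep D n := by
  induction n using Nat.recOnPosPrimePosCoprime with
  | prime_pow p e hp he =>
    intro _ ho hr
    have hp2 : p ≠ 2 := by
      rintro rfl
      rw [Nat.odd_pow_iff he.ne'] at ho
      exact absurd ho (by decide)
    rcases Nat.lt_or_ge 1 e with h1 | h1
    · -- e ≥ 2
      refine ⟨1, 1, p ^ ((e - 3 * (e % 2)) / 2), p ^ (e % 2), ?_, squarefree_one, ?_, one_dvd _⟩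
      · rw [← pow_mul, ← pow_mul, one_mul, one_mul, ← pow_add]
        congr 1
        omega
      · intro q hq hq1
        exact absurd (Nat.dvd_one.1 hq1) hq.one_lt.ne'
    · have he1 : e = 1 := by omega
      subst he1
      rw [pow_one] at hr ⊢
      rw [rr_prime D hp] at hr
      rcases jacobiSym.trichotomy D p with h | h | h
      · refine ⟨1, p, 1, 1, by simp, squarefree_one, ?_, ?_⟩
        · intro q hq hq1
          exact absurd (Nat.dvd_one.1 hq1) hq.one_lt.ne'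
        · rw [jacobiSym.eq_zero_iff] at h
          by_contra hc
          refine h.2 ?_
          have : Nat.Coprime D.natAbs p := ((Nat.Prime.coprime_iff_not_dvd hp).2 hc).symm
          rw [Int.gcd_eq_natAbs]
          simpa using this
      · refine ⟨p, 1, 1, 1, by simp, hp.squarefree, ?_, one_dvd _⟩
        intro q hq hq1
        have : q = p := (Nat.prime_dvd_prime_iff_eq hq hp).1 hq1
        rw [this]
        exact ⟨hp2, h⟩
      · rw [h] at hr
        exact absurd rfl hr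
  | zero => intro h; exact absurd rfl h
  | one =>
    intro _ _ _
    refine ⟨1, 1, 1, 1, by simp, squarefree_one, ?_, one_dvd _⟩
    intro q hq hq1
    exact absurd (Nat.dvd_one.1 hq1) hq.one_lt.ne'
  | coprime x y hx hy hxy ihx ihy =>
    intro h0 ho hr
    rw [Nat.odd_mul] at ho
    rw [rr_mul D hxy] at hr
    obtain ⟨a, b, u, v, e1, sa, pa, db⟩ := ihx (by omega) ho.1 (left_ne_zero_of_mul hr)
    obtain ⟨a', b', u', v', e1', sa', pa', db'⟩ := ihy (by omega) ho.2 (right_ne_zero_of_mul hr)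
    have hax : a ∣ x := by rw [e1]; exact ⟨b * u ^ 2 * v ^ 3, by ring⟩
    have hay : a' ∣ y := by rw [e1']; exact ⟨b' * u' ^ 2 * v' ^ 3, by ring⟩
    have hbx : b ∣ x := by rw [e1]; exact ⟨a * u ^ 2 * v ^ 3, by ring⟩
    have hby : b' ∣ y := by rw [e1']; exact ⟨a' * u' ^ 2 * v' ^ 3, by ring⟩
    refine ⟨a * a', b * b', u * u', v * v', ?_, ?_, ?_, ?_⟩
    · rw [e1, e1']; ring
    · rw [Nat.squarefree_mul (Nat.Coprime.coprime_dvd_left hax (Nat.Coprime.coprime_dvd_right hay hxy))]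
      exact ⟨sa, sa'⟩
    · intro p hp hpa
      rcases (Nat.Prime.dvd_mul hp).1 hpa with h | h
      · exact pa p hp h
      · exact pa' p hp h
    · exact Nat.Coprime.mul_dvd_of_dvd_of_dvd
        (Nat.Coprime.coprime_dvd_left hbx (Nat.Coprime.coprime_dvd_right hby hxy)) db db'

/-- the summand -/
noncomputable def g (u : ℕ) : ℝ := 1 / ((u : ℝ) * √(u : ℝ))

lemma g_nonneg (u : ℕ) : 0 ≤ g u := by unfold g; positivity

lemma sum_g_aux (N : ℕ) : ∑ u ∈ Icc 1 (N + 1), g u ≤ 3 - 2 / √((N + 1 : ℕ) : ℝ) := by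
  induction N with
  | zero => simp [g]; norm_num
  | succ N ih =>
    rw [Finset.sum_Icc_succ_top (by omega)]
    refine (add_le_add_left ih _).trans ?_
    set s := √((N + 1 : ℕ) : ℝ) with hs
    have hs0 : 0 < s := Real.sqrt_pos.2 (by positivity)
    have ht0 : 0 < √((N + 1 + 1 : ℕ) : ℝ) := Real.sqrt_pos.2 (by positivity)
    have hs2 : s ^ 2 = ((N + 1 : ℕ) : ℝ) := Real.sq_sqrt (by positivity)
    have ht2 : √((N + 1 + 1 : ℕ) : ℝ) ^ 2 = ((N + 1 + 1 : ℕ) : ℝ) := Real.sq_sqrt (by positivity)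
    unfold g
    set t := √((N + 1 + 1 : ℕ) : ℝ) with ht
    have h1 : t ^ 2 = s ^ 2 + 1 := by rw [hs2, ht2]; push_cast; ring
    have hst : s ≤ t := by nlinarith
    rw [← ht2]
    have h2 : 1 / (t ^ 2 * t) ≤ 2 / s - 2 / t := by
      have h3 : 2 / s - 2 / t = 2 / (s * t * (t + s)) := by
        field_simp
        nlinarith
      rw [h3, div_le_div_iff₀ (by positivity) (by positivity)]
      have : s * (t + s) ≤ 2 * t ^ 2 := by nlinarith
      nlinarith [mul_le_mul_of_nonneg_left this ht0.le]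
    linarith

lemma sum_g (N : ℕ) : ∑ u ∈ Icc 1 N, g u ≤ 3 := by
  rcases N with _ | N
  · simp
  · refine (sum_g_aux N).trans ?_
    have : 0 ≤ 2 / √((N + 1 : ℕ) : ℝ) := by positivity
    linarith

lemma kbound (B : ℝ) (hB : 1 ≤ B) (b u v : ℕ) (hb : 1 ≤ b) (hu : 1 ≤ u) (hv : 1 ≤ v)
    (hK : B < (b : ℝ) * u ^ 2 * v ^ 3) :
    1 / ((b : ℝ) * u ^ 2 * v ^ 3) ≤ 1 / B ^ (1 / 4 : ℝ) * (g u * g v) := by
  have hb' : (1 : ℝ) ≤ b := by exact_mod_cast hb
  have hu' : (1 : ℝ) ≤ u := by exact_mod_cast hu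
  have hv' : (1 : ℝ) ≤ v := by exact_mod_cast hv
  set K := (b : ℝ) * u ^ 2 * v ^ 3 with hKd
  have hK0 : 0 < K := by linarith
  have h1 : B ^ (1 / 4 : ℝ) ≤ K ^ (1 / 4 : ℝ) :=
    Real.rpow_le_rpow (by linarith) hK.le (by norm_num)
  set w := (u : ℝ) * v with hw
  have hw1 : 1 ≤ w := by nlinarith
  have hw0 : 0 < w := by linarith
  have hwK : w ^ 2 ≤ K := by
    have h3 : w ^ 2 = 1 * u ^ 2 * v ^ 2 := by rw [hw]; ring
    rw [h3, hKd]
    gcongr
    · norm_num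
  have h2 : ((u : ℝ) * √(u : ℝ)) * ((v : ℝ) * √(v : ℝ)) ≤ K ^ (3 / 4 : ℝ) := by
    have e1 : ((u : ℝ) * √(u : ℝ)) * ((v : ℝ) * √(v : ℝ)) = w * √w := by
      rw [hw, Real.sqrt_mul (by positivity)]; ring
    have e2 : w * √w = (w ^ 2) ^ (3 / 4 : ℝ) := by
      rw [← Real.rpow_two, ← Real.rpow_mul hw0.le, Real.sqrt_eq_rpow]
      nth_rw 1 [← Real.rpow_one w]
      rw [← Real.rpow_add hw0]
      norm_num
    rw [e1, e2]
    exact Real.rpow_le_rpow (by positivity) hwK (by norm_num)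
  have h3 : K ^ (1 / 4 : ℝ) * K ^ (3 / 4 : ℝ) = K := by
    rw [← Real.rpow_add hK0]; norm_num
  have hB0 : 0 < B ^ (1 / 4 : ℝ) := Real.rpow_pos_of_pos (by linarith) _
  have hu0 : 0 < (u : ℝ) * √(u : ℝ) := by
    have : 0 < √(u : ℝ) := Real.sqrt_pos.2 (by linarith)
    positivity
  have hv0 : 0 < (v : ℝ) * √(v : ℝ) := by
    have : 0 < √(v : ℝ) := Real.sqrt_pos.2 (by linarith)
    positivity
  unfold g
  rw [div_mul_div_comm, div_mul_div_comm, one_mul, one_mul]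
  refine one_div_le_one_div_of_le (by positivity) ?_
  calc B ^ (1 / 4 : ℝ) * (((u : ℝ) * √(u : ℝ)) * ((v : ℝ) * √(v : ℝ)))
      ≤ K ^ (1 / 4 : ℝ) * K ^ (3 / 4 : ℝ) := by gcongr
    _ = K := h3

open Pool.Agent.H568.GR in
lemma mm_mem {D : ℤ} {N n : ℕ} : n ∈ MM D N ↔ (1 ≤ n ∧ n ≤ N) ∧ Squarefree n ∧
    ∀ p : ℕ, p.Prime → p ∣ n → p ≠ 2 ∧ jacobiSym D p = 1 := by
  classical
  unfold MM
  simp only [Finset.mem_filter, Finset.mem_Icc]

/-- the indicator of `u ≤ B` -/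
noncomputable def ci (B : ℝ) (u : ℕ) : ℝ := if (u : ℝ) ≤ B then 1 else 0

lemma ci_nonneg (B : ℝ) (u : ℕ) : 0 ≤ ci B u := by unfold ci; split_ifs <;> norm_num

lemma sum_ci (B : ℝ) (hB : 1 ≤ B) (N : ℕ) : ∑ u ∈ Icc 1 N, ci B u ≤ B := by
  unfold ci
  rw [← Finset.sum_filter, Finset.sum_const, nsmul_eq_mul, mul_one]
  have h1 : (Icc 1 N).filter (fun u : ℕ => (u : ℝ) ≤ B) ⊆ Icc 1 ⌊B⌋₊ := by
    intro u hu
    rw [Finset.mem_filter, Finset.mem_Icc] at hu
    rw [Finset.mem_Icc]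
    exact ⟨hu.1.1, Nat.le_floor hu.2⟩
  have h2 := Finset.card_le_card h1
  rw [Nat.card_Icc, Nat.add_sub_cancel] at h2
  calc ((((Icc 1 N).filter (fun u : ℕ => (u : ℝ) ≤ B)).card : ℕ) : ℝ) ≤ (⌊B⌋₊ : ℝ) := by
        exact_mod_cast h2
    _ ≤ B := Nat.floor_le (by linarith)

open Pool.Agent.H568.GR in
lemma card_E (D : ℤ) (hD : D ≠ 0) (N : ℕ) (B : ℝ) (hB : 1 ≤ B) :
    (((Icc 1 N).filter (fun n => Odd n ∧ rr D n ≠ 0)).card : ℝ) ≤
      D.natAbs.divisors.card * (B ^ 2 * (MM D N).card + 10 * N / B ^ (1 / 4 : ℝ)) := by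
  classical
  set M := MM D N with hM
  set V := D.natAbs.divisors with hV
  set P := V ×ˢ ((Icc 1 N) ×ˢ (Icc 1 N)) with hP
  set Kf : ℕ × (ℕ × ℕ) → ℕ := fun t => t.1 * t.2.1 ^ 2 * t.2.2 ^ 3 with hKf
  have hsub : (Icc 1 N).filter (fun n => Odd n ∧ rr D n ≠ 0) ⊆
      P.biUnion (fun t => (M.filter (fun a => a * Kf t ≤ N)).image (fun a => a * Kf t)) := by
    intro n hn
    rw [Finset.mem_filter, Finset.mem_Icc] at hn
    obtain ⟨⟨hn1, hnN⟩, ho, hr⟩ := hn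
    obtain ⟨a, b, u, v, e, sa, pa, db⟩ := rep D n (by omega) ho hr
    have hab : a * b * u ^ 2 * v ^ 3 ≠ 0 := by rw [← e]; omega
    have ha : a ≠ 0 := by rintro rfl; simp at hab
    have hu : u ≠ 0 := by rintro rfl; simp at hab
    have hv : v ≠ 0 := by rintro rfl; simp at hab
    have hle : ∀ x, x ∣ n → x ≤ N := fun x hx => (Nat.le_of_dvd (by omega) hx).trans hnN
    rw [Finset.mem_biUnion]
    refine ⟨(b, (u, v)), ?_, ?_⟩
    · simp only [hP, Finset.mem_product, Finset.mem_Icc, hV, Nat.mem_divisors]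
      refine ⟨⟨db, by simpa using hD⟩, ⟨by omega, hle u ⟨a * b * u * v ^ 3, by rw [e]; ring⟩⟩,
        ⟨by omega, hle v ⟨a * b * u ^ 2 * v ^ 2, by rw [e]; ring⟩⟩⟩
    · rw [Finset.mem_image]
      have h0 : a * Kf (b, (u, v)) = n := by simp only [hKf]; rw [e]; ring
      refine ⟨a, ?_, h0⟩
      rw [Finset.mem_filter, hM, mm_mem]
      refine ⟨⟨⟨by omega, hle a ⟨b * u ^ 2 * v ^ 3, by rw [e]; ring⟩⟩, sa, pa⟩, ?_⟩
      rw [h0]; exact hnN
  have h1 : (((Icc 1 N).filter (fun n => Odd n ∧ rr D n ≠ 0)).card : ℝ) ≤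
      ∑ t ∈ P, ((M.filter (fun a => a * Kf t ≤ N)).card : ℝ) := by
    have h3 := (Finset.card_le_card hsub).trans (Finset.card_biUnion_le)
    have h2 : ∑ t ∈ P, ((M.filter (fun a => a * Kf t ≤ N)).image (fun a => a * Kf t)).card ≤
        ∑ t ∈ P, (M.filter (fun a => a * Kf t ≤ N)).card :=
      Finset.sum_le_sum (fun t _ => Finset.card_image_le)
    exact_mod_cast h3.trans h2
  have hB0 : 0 < B ^ (1 / 4 : ℝ) := Real.rpow_pos_of_pos (by linarith) _
  have h2 : ∀ t ∈ P, ((M.filter (fun a => a * Kf t ≤ N)).card : ℝ) ≤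
      (M.card : ℝ) * (ci B t.2.1 * ci B t.2.2) +
        N / B ^ (1 / 4 : ℝ) * (g t.2.1 * g t.2.2) := by
    rintro ⟨b, ⟨u, v⟩⟩ ht
    simp only [hP, Finset.mem_product, Finset.mem_Icc, hV, Nat.mem_divisors] at ht
    obtain ⟨⟨hb, hb0⟩, ⟨hu, _⟩, ⟨hv, _⟩⟩ := ht
    have hb1 : 1 ≤ b := Nat.one_le_iff_ne_zero.2 (by
      rintro rfl
      exact hb0 (Nat.eq_zero_of_zero_dvd hb))
    have hKr : ((Kf (b, (u, v)) : ℕ) : ℝ) = (b : ℝ) * u ^ 2 * v ^ 3 := by
      simp only [hKf]; push_cast; ring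
    have hb' : (1 : ℝ) ≤ b := by exact_mod_cast hb1
    have hu' : (1 : ℝ) ≤ u := by exact_mod_cast hu
    have hv' : (1 : ℝ) ≤ v := by exact_mod_cast hv
    have hg : 0 ≤ (N : ℝ) / B ^ (1 / 4 : ℝ) * (g u * g v) :=
      mul_nonneg (by positivity) (mul_nonneg (g_nonneg u) (g_nonneg v))
    have hc : 0 ≤ (M.card : ℝ) * (ci B u * ci B v) :=
      mul_nonneg (by positivity) (mul_nonneg (ci_nonneg B u) (ci_nonneg B v))
    show ((M.filter (fun a => a * Kf (b, (u, v)) ≤ N)).card : ℝ) ≤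
      (M.card : ℝ) * (ci B u * ci B v) + N / B ^ (1 / 4 : ℝ) * (g u * g v)
    by_cases hKB : (b : ℝ) * u ^ 2 * v ^ 3 ≤ B
    · have h5 : (1 : ℝ) ≤ (u : ℝ) ^ 2 := one_le_pow₀ hu'
      have h6 : (1 : ℝ) ≤ (v : ℝ) ^ 3 := one_le_pow₀ hv'
      have h7 : (u : ℝ) ≤ (u : ℝ) ^ 2 := by nlinarith
      have h8 : (v : ℝ) ≤ (v : ℝ) ^ 3 := by nlinarith [one_le_pow₀ hv' (n := 2)]
      have h9 : (u : ℝ) ≤ B := by
        refine le_trans ?_ hKB
        calc (u : ℝ) ≤ (u : ℝ) ^ 2 := h7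
          _ = 1 * (u : ℝ) ^ 2 * 1 := by ring
          _ ≤ (b : ℝ) * u ^ 2 * v ^ 3 := by gcongr
      have h10 : (v : ℝ) ≤ B := by
        refine le_trans ?_ hKB
        calc (v : ℝ) ≤ (v : ℝ) ^ 3 := h8
          _ = 1 * 1 * (v : ℝ) ^ 3 := by ring
          _ ≤ (b : ℝ) * u ^ 2 * v ^ 3 := by gcongr
      have h11 : ci B u * ci B v = 1 := by
        unfold ci; rw [if_pos h9, if_pos h10, one_mul]
      rw [h11, mul_one]
      have h12 : ((M.filter (fun a => a * Kf (b, (u, v)) ≤ N)).card : ℝ) ≤ M.card := by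
        exact_mod_cast Finset.card_filter_le _ _
      linarith
    · push Not at hKB
      have h13 := kbound B hB b u v hb1 hu hv hKB
      have hK0 : 0 < Kf (b, (u, v)) := by
        have : (0 : ℝ) < ((Kf (b, (u, v)) : ℕ) : ℝ) := by rw [hKr]; positivity
        exact_mod_cast this
      have h14 : M.filter (fun a => a * Kf (b, (u, v)) ≤ N) ⊆ Icc 1 (N / Kf (b, (u, v))) := by
        intro a ha
        rw [Finset.mem_filter, hM, mm_mem] at ha
        rw [Finset.mem_Icc]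
        exact ⟨ha.1.1.1, (Nat.le_div_iff_mul_le hK0).2 ha.2⟩
      have h15 := Finset.card_le_card h14
      rw [Nat.card_Icc, Nat.add_sub_cancel] at h15
      have h16 : ((M.filter (fun a => a * Kf (b, (u, v)) ≤ N)).card : ℝ) ≤
          N / ((Kf (b, (u, v)) : ℕ) : ℝ) := by
        calc ((M.filter (fun a => a * Kf (b, (u, v)) ≤ N)).card : ℝ)
            ≤ ((N / Kf (b, (u, v)) : ℕ) : ℝ) := by exact_mod_cast h15
          _ ≤ N / ((Kf (b, (u, v)) : ℕ) : ℝ) := Nat.cast_div_le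
      have h17 : (N : ℝ) / ((Kf (b, (u, v)) : ℕ) : ℝ) ≤
          N / B ^ (1 / 4 : ℝ) * (g u * g v) := by
        rw [hKr]
        calc (N : ℝ) / ((b : ℝ) * u ^ 2 * v ^ 3) = N * (1 / ((b : ℝ) * u ^ 2 * v ^ 3)) := by ring
          _ ≤ N * (1 / B ^ (1 / 4 : ℝ) * (g u * g v)) := by gcongr
          _ = _ := by ring
      linarith
  have h3 := h1.trans (Finset.sum_le_sum h2)
  refine h3.trans ?_
  rw [hP, Finset.sum_product]
  simp only []
  rw [Finset.sum_const, nsmul_eq_mul]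
  refine mul_le_mul_of_nonneg_left ?_ (by positivity)
  rw [Finset.sum_add_distrib, ← Finset.mul_sum, ← Finset.mul_sum]
  have e1 : ∑ t ∈ (Icc 1 N) ×ˢ (Icc 1 N), ci B t.1 * ci B t.2 =
      (∑ u ∈ Icc 1 N, ci B u) * ∑ v ∈ Icc 1 N, ci B v := by
    rw [Finset.sum_mul_sum, Finset.sum_product]
  have e2 : ∑ t ∈ (Icc 1 N) ×ˢ (Icc 1 N), g t.1 * g t.2 =
      (∑ u ∈ Icc 1 N, g u) * ∑ v ∈ Icc 1 N, g v := by
    rw [Finset.sum_mul_sum, Finset.sum_product]
  rw [e1, e2]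
  have hc0 : 0 ≤ ∑ u ∈ Icc 1 N, ci B u := Finset.sum_nonneg (fun u _ => ci_nonneg B u)
  have hg0 : 0 ≤ ∑ u ∈ Icc 1 N, g u := Finset.sum_nonneg (fun u _ => g_nonneg u)
  have hc1 := sum_ci B hB N
  have hg1 := sum_g N
  have hcc : (∑ u ∈ Icc 1 N, ci B u) * ∑ v ∈ Icc 1 N, ci B v ≤ B ^ 2 := by nlinarith
  have hgg : (∑ u ∈ Icc 1 N, g u) * ∑ v ∈ Icc 1 N, g v ≤ 10 := by nlinarith
  have hN : 0 ≤ (N : ℝ) / B ^ (1 / 4 : ℝ) := by positivity
  calc (M.card : ℝ) * ((∑ u ∈ Icc 1 N, ci B u) * ∑ v ∈ Icc 1 N, ci B v) +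
        N / B ^ (1 / 4 : ℝ) * ((∑ u ∈ Icc 1 N, g u) * ∑ v ∈ Icc 1 N, g v)
      ≤ (M.card : ℝ) * B ^ 2 + N / B ^ (1 / 4 : ℝ) * 10 := by gcongr
    _ = B ^ 2 * M.card + 10 * N / B ^ (1 / 4 : ℝ) := by ring

end Pool.Agent.TH423.GR.DecA

namespace Pool.Agent.TH423.GR

open Finset Pool.Agent.H568.GR

theorem dec : S_DEC := by
  classical
  intro D hD N B T hB hT
  rcases Nat.eq_zero_or_pos N with hN | hN
  · subst hN
    have h1 : (MM D 0).card = 0 := by
      rw [Finset.card_eq_zero, Finset.eq_empty_iff_forall_notMem]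
      intro n hn
      rw [DecA.mm_mem] at hn
      omega
    rw [h1]
    simp
  · have hT1 : 1 ≤ T := by
      have := hT 1 (by rw [Finset.mem_Icc]; omega)
      simpa using this
    have h2 : ∑ n ∈ (Icc 1 N).filter (fun n => Odd n), ∑ d ∈ n.divisors, ((jacobiSym D d : ℤ) : ℝ) ≤
        ∑ n ∈ (Icc 1 N).filter (fun n => Odd n), (if DecA.rr D n ≠ 0 then T else 0) := by
      refine Finset.sum_le_sum (fun n hn => ?_)
      rw [Finset.mem_filter] at hn
      have h3 : ∑ d ∈ n.divisors, ((jacobiSym D d : ℤ) : ℝ) = ((DecA.rr D n : ℤ) : ℝ) := by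
        unfold DecA.rr; push_cast; rfl
      split_ifs with h
      · refine le_trans ?_ (hT n hn.1)
        calc ∑ d ∈ n.divisors, ((jacobiSym D d : ℤ) : ℝ) ≤ ∑ d ∈ n.divisors, (1 : ℝ) := by
              refine Finset.sum_le_sum (fun d _ => ?_)
              rcases jacobiSym.trichotomy D d with h | h | h <;> rw [h] <;> norm_num
          _ = n.divisors.card := by simp
      · push Not at h
        rw [h3, h]; simp
    refine h2.trans ?_
    rw [← Finset.sum_filter, Finset.filter_filter, Finset.sum_const, nsmul_eq_mul]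
    have h4 := DecA.card_E D hD N B hB
    calc (((Icc 1 N).filter (fun n => Odd n ∧ DecA.rr D n ≠ 0)).card : ℝ) * T
        ≤ (D.natAbs.divisors.card * (B ^ 2 * (MM D N).card + 10 * N / B ^ (1 / 4 : ℝ))) * T := by
          gcongr
      _ = _ := by ring

end Pool.Agent.TH423.GR
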